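import Pool.Agent.N741.HB.Stm
import Pool.Agent.Y394.GN.Alg

/-! Project HB, task 13: the function field of `h = 0`. -/

set_option autoImplicit false

namespace Pool.Agent.N54.HB

open MvPolynomial Pool.Agent.N741.HB

/-- the ideal of the polynomials which vanish on the generic fibre -/
def pp {d : ℕ} (h : MvPolynomial (Option (Fin d)) ℤ) :
    Ideal (MvPolynomial (Option (Fin d)) ℤ) where
  carrier := {p | InP h p}
  add_mem' := by
    rintro p q ⟨c, hc, h1⟩ ⟨c', hc', h2⟩
    refine ⟨c * c', mul_ne_zero hc hc', ?_⟩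
    have h3 : rename some (c * c') * (p + q) =
        rename some c' * (rename some c * p) + rename some c * (rename some c' * q) := by
      rw [map_mul]; ring
    rw [h3]
    exact dvd_add (dvd_mul_of_dvd_right h1 _) (dvd_mul_of_dvd_right h2 _)
  zero_mem' := ⟨1, one_ne_zero, by rw [mul_zero]; exact dvd_zero _⟩
  smul_mem' := by
    rintro c p ⟨c', hc', z, hz⟩
    refine ⟨c', hc', c * z, ?_⟩
    rw [smul_eq_mul]
    linear_combination c * hz

theorem mem_pp {d : ℕ} (h p : MvPolynomial (Option (Fin d)) ℤ) : p ∈ pp h ↔ InP h p := Iff.rfl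

theorem exL {d : ℕ} (h : MvPolynomial (Option (Fin d)) ℤ) (hI : Irr h) :
    ∃ (L : Type) (_ : Field L) (φ : MvPolynomial (Option (Fin d)) ℤ →+* L),
      (∀ p, φ p = 0 ↔ InP h p) ∧ ∀ z : L, ∃ a b, φ b ≠ 0 ∧ z = φ a / φ b := by
  have hp : (pp h).IsPrime := by
    refine Ideal.isPrime_iff.2 ⟨?_, ?_⟩
    · rw [Ne, Ideal.eq_top_iff_one]
      exact hI.one
    · intro p q hpq
      exact hI.mul p q hpq
  have hdom : IsDomain (MvPolynomial (Option (Fin d)) ℤ ⧸ pp h) := Ideal.Quotient.isDomain _
  have hinj : Function.Injective (algebraMap (MvPolynomial (Option (Fin d)) ℤ ⧸ pp h)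
    (FractionRing (MvPolynomial (Option (Fin d)) ℤ ⧸ pp h))) := IsFractionRing.injective _ _
  refine ⟨FractionRing (MvPolynomial (Option (Fin d)) ℤ ⧸ pp h), inferInstance,
    (algebraMap _ _).comp (Ideal.Quotient.mk (pp h)), fun p => ?_, fun z => ?_⟩
  · rw [RingHom.comp_apply, map_eq_zero_iff _ hinj, Ideal.Quotient.eq_zero_iff_mem]
    rfl
  · obtain ⟨a, b, hb, rfl⟩ :=
      IsFractionRing.div_surjective (A := MvPolynomial (Option (Fin d)) ℤ ⧸ pp h) z
    obtain ⟨a', rfl⟩ := Ideal.Quotient.mk_surjective a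
    obtain ⟨b', rfl⟩ := Ideal.Quotient.mk_surjective b
    refine ⟨a', b', ?_, rfl⟩
    rw [RingHom.comp_apply, Ne, map_eq_zero_iff _ hinj]
    exact nonZeroDivisors.ne_zero hb

section deg

variable {L : Type} [Field L] {d : ℕ} (t : Fin d → L) (θ : L)

theorem ev_left (p : MvPolynomial (Option (Fin d)) ℤ) :
    aeval (fun o : Option (Fin d) => o.elim θ t) p =
      (optionEquivLeft ℤ (Fin d) p).eval₂ (aeval t).toRingHom θ := by
  induction p using MvPolynomial.induction_on with
  | C c =>
    rw [optionEquivLeft_C, Polynomial.eval₂_C, aeval_C]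
    exact (aeval_C t c).symm
  | add P Q hP hQ => rw [map_add, map_add, hP, hQ, Polynomial.eval₂_add]
  | mul_X P o hP =>
    rw [map_mul, map_mul, hP, Polynomial.eval₂_mul, aeval_X]
    congr 1
    rcases o with _ | c
    · rw [optionEquivLeft_X_none, Polynomial.eval₂_X]
      rfl
    · rw [optionEquivLeft_X_some, Polynomial.eval₂_C]
      exact (aeval_X t c).symm

theorem degL [CharZero L] (ht : AlgebraicIndependent ℤ t)
    (H : Polynomial (MvPolynomial (Fin d) ℤ)) (hH0 : H ≠ 0)
    (hH : H.eval₂ (aeval t).toRingHom θ = 0)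
    (hfrac : ∀ z : L, ∃ a b : MvPolynomial (Option (Fin d)) ℤ,
      z = aeval (fun o : Option (Fin d) => o.elim θ t) a /
        aeval (fun o : Option (Fin d) => o.elim θ t) b) (f : L) :
    ∃ P : Polynomial (MvPolynomial (Fin d) ℤ), P ≠ 0 ∧ P.natDegree ≤ H.natDegree ∧
      P.eval₂ (aeval t).toRingHom f = 0 := by
  classical
  have hinj : Function.Injective (aeval t).toRingHom := ht
  obtain ⟨F, _, _, hF⟩ : ∃ (F : Type) (_ : Field F) (_ : Algebra (MvPolynomial (Fin d) ℤ) F),
      IsFractionRing (MvPolynomial (Fin d) ℤ) F :=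
    ⟨FractionRing (MvPolynomial (Fin d) ℤ), inferInstance, inferInstance, inferInstance⟩
  let algSL : Algebra (MvPolynomial (Fin d) ℤ) L := (aeval t).toRingHom.toAlgebra
  let algFL : Algebra F L :=
    (IsFractionRing.lift (A := MvPolynomial (Fin d) ℤ) (K := F) hinj).toAlgebra
  have hst : IsScalarTower (MvPolynomial (Fin d) ℤ) F L := by
    refine IsScalarTower.of_algebraMap_eq fun P => ?_
    change (aeval t).toRingHom P = IsFractionRing.lift hinj (algebraMap _ F P)
    rw [IsFractionRing.lift_algebraMap]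
  have hinjF : Function.Injective (algebraMap (MvPolynomial (Fin d) ℤ) F) :=
    IsFractionRing.injective _ F
  have hmap : ∀ (P : Polynomial (MvPolynomial (Fin d) ℤ)) (z : L),
      P.eval₂ (aeval t).toRingHom z =
        Polynomial.aeval z (P.map (algebraMap (MvPolynomial (Fin d) ℤ) F)) := fun P z => by
    rw [Polynomial.aeval_map_algebraMap]
    rfl
  have hHm0 : H.map (algebraMap (MvPolynomial (Fin d) ℤ) F) ≠ 0 := by
    rwa [Ne, Polynomial.map_eq_zero_iff hinjF]
  have hHdeg : (H.map (algebraMap (MvPolynomial (Fin d) ℤ) F)).natDegree = H.natDegree :=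
    Polynomial.natDegree_map_eq_of_injective hinjF H
  have hθ : IsIntegral F θ := by
    refine IsAlgebraic.isIntegral ⟨_, hHm0, ?_⟩
    rw [← hmap, hH]
  have hmin : (minpoly F θ).natDegree ≤ H.natDegree := by
    rw [← hHdeg]
    exact Polynomial.natDegree_le_of_dvd (minpoly.dvd F θ (by rw [← hmap, hH])) hHm0
  have hmem : ∀ p : MvPolynomial (Option (Fin d)) ℤ,
      aeval (fun o : Option (Fin d) => o.elim θ t) p ∈ IntermediateField.adjoin F {θ} := by
    intro p
    induction p using MvPolynomial.induction_on with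
    | C c =>
      rw [aeval_C, eq_intCast]
      exact intCast_mem _ _
    | add P Q hP hQ =>
      rw [map_add]
      exact add_mem hP hQ
    | mul_X P o hP =>
      rw [map_mul]
      refine mul_mem hP ?_
      rw [aeval_X]
      rcases o with _ | c
      · exact IntermediateField.mem_adjoin_simple_self F θ
      · have h1 : algebraMap F L (algebraMap (MvPolynomial (Fin d) ℤ) F (X c)) = t c := by
          rw [← IsScalarTower.algebraMap_apply]
          exact aeval_X t c
        change t c ∈ _
        rw [← h1]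
        exact IntermediateField.algebraMap_mem _ _
  have htop : IntermediateField.adjoin F {θ} = ⊤ := by
    rw [eq_top_iff]
    intro z _
    obtain ⟨a, b, rfl⟩ := hfrac z
    exact div_mem (hmem a) (hmem b)
  have hfin : Module.finrank F L ≤ H.natDegree := by
    rw [← IntermediateField.finrank_top', ← htop, IntermediateField.adjoin.finrank hθ]
    exact hmin
  have hfd : FiniteDimensional F L := by
    have h1 : FiniteDimensional F (IntermediateField.adjoin F {θ}) :=
      IntermediateField.adjoin.finiteDimensional hθ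
    rw [htop] at h1
    exact LinearEquiv.finiteDimensional IntermediateField.topEquiv.toLinearEquiv
  obtain ⟨c, P, hc, hP⟩ := Pool.Agent.Y394.GN.clear_den (S := MvPolynomial (Fin d) ℤ) (minpoly F f)
  have hfi : IsIntegral F f := IsIntegral.of_finite F f
  have hcF : algebraMap (MvPolynomial (Fin d) ℤ) F c ≠ 0 := by
    rwa [Ne, map_eq_zero_iff _ hinjF]
  have hP0 : P.map (algebraMap (MvPolynomial (Fin d) ℤ) F) ≠ 0 := by
    rw [hP]
    exact mul_ne_zero (by rwa [Ne, Polynomial.C_eq_zero]) (minpoly.ne_zero hfi)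
  refine ⟨P, ?_, ?_, ?_⟩
  · intro h0
    apply hP0
    rw [h0, Polynomial.map_zero]
  · rw [← Polynomial.natDegree_map_eq_of_injective hinjF P, hP, Polynomial.natDegree_C_mul hcF]
    exact (minpoly.natDegree_le f).trans hfin
  · rw [hmap, hP, map_mul, minpoly.aeval, mul_zero]

end deg

end Pool.Agent.N54.HB
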