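import Mathlib

/-! Project HB, task 13: expansions of polynomials in two of the variables. -/

set_option autoImplicit false

namespace Pool.Agent.N54.HB

open MvPolynomial

section expand

variable {Ω : Type} [Field Ω] {d : ℕ} (t : Fin d → Ω) (b : Fin d) (k : Subring Ω)

theorem coef (hk : ∀ c, c ≠ b → t c ∈ k) (C : ℕ) (a : MvPolynomial (Fin d) ℤ)
    (ha : a.totalDegree ≤ C) :
    ∃ P : ℕ → Ω, (∀ i, P i ∈ k) ∧
      aeval t a = ∑ i ∈ Finset.range (C + 1), P i * t b ^ i := by
  classical
  refine ⟨fun i => ∑ m ∈ a.support.filter (fun m => m b = i),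
    ((a.coeff m : ℤ) : Ω) * ∏ c ∈ Finset.univ.erase b, t c ^ m c, fun i => ?_, ?_⟩
  · exact sum_mem fun m _ => mul_mem (intCast_mem _ _)
      (prod_mem fun c hc => pow_mem (hk c (Finset.ne_of_mem_erase hc)) _)
  · have h1 : aeval t a = ∑ m ∈ a.support, ((a.coeff m : ℤ) : Ω) * ∏ c, t c ^ m c := by
      rw [aeval_def, eval₂_eq']
      refine Finset.sum_congr rfl fun m _ => ?_
      rw [eq_intCast]
    rw [h1, ← Finset.sum_fiberwise_of_maps_to (g := fun m : Fin d →₀ ℕ => m b)
      (t := Finset.range (C + 1))]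
    · refine Finset.sum_congr rfl fun i _ => ?_
      rw [Finset.sum_mul]
      refine Finset.sum_congr rfl fun m hm => ?_
      rw [← Finset.prod_erase_mul _ _ (Finset.mem_univ b), (Finset.mem_filter.1 hm).2]
      ring
    · intro m hm
      rw [Finset.mem_range]
      have h2 := le_totalDegree hm
      have h3 : m b ≤ m.sum fun _ e => e := by
        by_cases hb : b ∈ m.support
        · exact Finset.single_le_sum (f := fun b => m b) (fun _ _ => Nat.zero_le _) hb
        · rw [Finsupp.notMem_support_iff.1 hb]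
          exact Nat.zero_le _
      omega

theorem coef2 (θ : Ω) (hk : ∀ c, c ≠ b → t c ∈ k) (C : ℕ) (p : MvPolynomial (Option (Fin d)) ℤ)
    (hp : p.totalDegree ≤ C) :
    ∃ P : ℕ → ℕ → Ω, (∀ i j, P i j ∈ k) ∧
      aeval (fun o : Option (Fin d) => o.elim θ t) p =
        ∑ i ∈ Finset.range (C + 1), ∑ j ∈ Finset.range (C + 1), P i j * (t b ^ i * θ ^ j) ∧
      (p ≠ 0 → AlgebraicIndependent ℤ t → ∃ i ≤ C, ∃ j ≤ C, P i j ≠ 0) := by
  classical
  set q := optionEquivLeft ℤ (Fin d) p with hq
  have hd : q.natDegree < C + 1 := by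
    rw [hq, natDegree_optionEquivLeft]
    have := degreeOf_le_totalDegree p none
    omega
  have hc : ∀ j, (q.coeff j).totalDegree ≤ C := fun j =>
    (totalDegree_coeff_optionEquivLeft_le ℤ (Fin d) p j).trans hp
  choose P hP1 hP2 using fun j => coef t b k hk C (q.coeff j) (hc j)
  have hev : aeval (fun o : Option (Fin d) => o.elim θ t) p =
      q.eval₂ (aeval t).toRingHom θ := by
    rw [hq]
    clear_value q
    clear hP1 hP2 hd hc hq hp
    induction p using MvPolynomial.induction_on with
    | C c =>
      rw [optionEquivLeft_C, Polynomial.eval₂_C, aeval_C]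
      exact (aeval_C t c).symm
    | add P Q hP hQ => rw [map_add, map_add, hP, hQ, Polynomial.eval₂_add]
    | mul_X P o hP =>
      rw [map_mul, map_mul, hP, Polynomial.eval₂_mul, aeval_X]
      congr 1
      rcases o with _ | c
      · rw [optionEquivLeft_X_none, Polynomial.eval₂_X]
        rfl
      · rw [optionEquivLeft_X_some, Polynomial.eval₂_C]
        exact (aeval_X t c).symm
  refine ⟨fun i j => P j i, fun i j => hP1 j i, ?_, ?_⟩
  · rw [hev, Polynomial.eval₂_eq_sum_range' _ hd, Finset.sum_comm]
    refine Finset.sum_congr rfl fun j _ => ?_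
    have h1 : (aeval t).toRingHom (q.coeff j) = aeval t (q.coeff j) := rfl
    rw [h1, hP2 j, Finset.sum_mul]
    exact Finset.sum_congr rfl fun i _ => by ring
  · intro h0 hind
    by_contra hne
    push Not at hne
    apply h0
    have h1 : q = 0 := by
      ext1 j
      rw [Polynomial.coeff_zero]
      by_cases hj : j ≤ C
      · refine (injective_iff_map_eq_zero _).1 hind _ ?_
        rw [hP2 j]
        exact Finset.sum_eq_zero fun i hi => by
          rw [hne i (by rw [Finset.mem_range] at hi; omega) j hj, zero_mul]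
      · exact Polynomial.coeff_eq_zero_of_natDegree_lt (by omega)
    exact (map_eq_zero_iff _ (optionEquivLeft ℤ (Fin d)).injective).1 (hq ▸ h1)

end expand

end Pool.Agent.N54.HB
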