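import Pool.Agent.N741.HB.Stm
import Pool.Agent.N54.HB.A1

/-! Project HB, task 13: the statement for one direction, inside an algebraically closed field. -/

set_option autoImplicit false

namespace Pool.Agent.N54.HB

open MvPolynomial Pool.Agent.N741.HB

/-- the field generated by the other coordinates -/
abbrev kb {Ω : Type} [Field Ω] [CharZero Ω] {d : ℕ} (t : Fin d → Ω) (b : Fin d) :
    IntermediateField ℚ Ω :=
  IntermediateField.adjoin ℚ {x : Ω | ∃ c, c ≠ b ∧ x = t c}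

theorem trans_kb {Ω : Type} [Field Ω] [CharZero Ω] {d : ℕ} (t : Fin d → Ω) (b : Fin d)
    (ht : AlgebraicIndependent ℤ t) : Transcendental (kb t b) (t b) := by
  have h0 : Algebra.IsAlgebraic ℤ ℚ := IsLocalization.isAlgebraic ℚ (nonZeroDivisors ℤ)
  have h1 : AlgebraicIndependent ℚ t := ht.extendScalars ℚ
  have h2 : Transcendental (Algebra.adjoin ℚ (t '' {c | c ≠ b})) (t b) :=
    h1.transcendental_adjoin (by simp)
  have h3 : t '' {c | c ≠ b} = {x : Ω | ∃ c, c ≠ b ∧ x = t c} := by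
    ext x
    constructor
    · rintro ⟨c, hc, rfl⟩
      exact ⟨c, hc, rfl⟩
    · rintro ⟨c, hc, rfl⟩
      exact ⟨c, hc, rfl⟩
  rw [h3] at h2
  exact IntermediateField.transcendental_adjoin_iff.2 h2

theorem coe_ev2 {Ω : Type} [Field Ω] (F : Type) [Field F] [Algebra F Ω]
    (k : IntermediateField F Ω) (K : IntermediateField k Ω) (C : ℕ) (P : ℕ → ℕ → k) (x y : K) :
    ((ev2 C P x y : K) : Ω) = ∑ i ∈ Finset.range (C + 1), ∑ j ∈ Finset.range (C + 1),
      ((P i j : k) : Ω) * ((x : Ω) ^ i * (y : Ω) ^ j) := by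
  have h1 : ((ev2 C P x y : K) : Ω) = algebraMap K Ω (ev2 C P x y) := rfl
  rw [h1, ev2, map_sum]
  refine Finset.sum_congr rfl fun i _ => ?_
  rw [map_sum]
  refine Finset.sum_congr rfl fun j _ => ?_
  rw [map_mul, map_mul, map_pow, map_pow]
  rfl

theorem dirΩ (hd : S_dir) (N c₀ n k₀ : ℕ) : ∃ R₀ B : ℕ,
    ∀ (Ω : Type) [Field Ω] [CharZero Ω] [IsAlgClosed Ω] (d : ℕ) (t : Fin d → Ω) (θ : Ω) (b : Fin d),
    AlgebraicIndependent ℤ t →
    ∀ (h : MvPolynomial (Option (Fin d)) ℤ) (b0 : MvPolynomial (Fin d) ℤ)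
      (bj : Fin N → MvPolynomial (Option (Fin d)) ℤ),
    h ≠ 0 → h.totalDegree ≤ c₀ → b0 ≠ 0 → b0.totalDegree ≤ c₀ → (∀ j, (bj j).totalDegree ≤ c₀) →
    aeval (fun o : Option (Fin d) => o.elim θ t) h = 0 →
    (∀ j, aeval (fun o : Option (Fin d) => o.elim θ t) (bj j) ≠ 0) →
    ∀ (e : Fin n → Fin N → ℕ) (u : Fin n → ℤ), (∀ i, u i ≠ 0) →
    (∀ J : Finset (Fin n), J.Nonempty → ∑ i ∈ J, (u i : Ω) *
      ∏ j, (aeval (fun o : Option (Fin d) => o.elim θ t) (bj j) / aeval t b0) ^ e i j ≠ 0) →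
    ∀ (κ r : ℕ) (g₁ g₂ : MvPolynomial (Option (Fin d)) ℤ), 1 ≤ κ → κ ≤ k₀ → R₀ ≤ r →
    (∑ i, (u i : Ω) *
      ∏ j, (aeval (fun o : Option (Fin d) => o.elim θ t) (bj j) / aeval t b0) ^ e i j) ^ κ =
      (aeval (fun o : Option (Fin d) => o.elim θ t) g₁ /
        aeval (fun o : Option (Fin d) => o.elim θ t) g₂) ^ r →
    ∀ i i' : Fin n, ∃ P : ℕ → ℕ → Ω, (∀ i j, IsAlgebraic (IntermediateField.adjoin ℚ
      {x : Ω | ∃ c, c ≠ b ∧ x = t c}) (P i j)) ∧ ne2 B P ∧
      ev2 B P (t b) (((u i : Ω) * ∏ j, (aeval (fun o : Option (Fin d) => o.elim θ t) (bj j) /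
          aeval t b0) ^ e i j) /
        ((u i' : Ω) * ∏ j, (aeval (fun o : Option (Fin d) => o.elim θ t) (bj j) /
          aeval t b0) ^ e i' j)) = 0 := by
  classical
  obtain ⟨R₀, B, hRB⟩ := hd N c₀ n k₀
  refine ⟨R₀, B, ?_⟩
  intro Ω _ _ _ d t θ b ht h b0 bj hne hdeg b0ne b0deg bjdeg hh hbj e u hu hJ κ r g₁ g₂ hκ1 hκ hr
    heq i i'
  let k : IntermediateField (kb t b) Ω := algebraicClosure (kb t b) Ω
  have hkcl : IsAlgClosed k := (algebraicClosure.isAlgClosure (kb t b) Ω).isAlgClosed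
  have hk0 : CharZero k := inferInstance
  let K : IntermediateField k Ω := IntermediateField.adjoin k {t b, θ}
  have hxK : t b ∈ K := IntermediateField.subset_adjoin k _ (by simp)
  have hθK : θ ∈ K := IntermediateField.subset_adjoin k _ (by simp)
  let x : K := ⟨t b, hxK⟩
  let θ' : K := ⟨θ, hθK⟩
  have hxt : Transcendental k x := by
    have h1 : Transcendental k (t b) := (trans_kb t b ht).algebraicClosure
    intro halg
    apply h1
    exact halg.algebraMap (A := Ω)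
  have htop : IntermediateField.adjoin k {x, θ'} = ⊤ := by
    apply IntermediateField.lift_injective K
    rw [IntermediateField.lift_adjoin, IntermediateField.lift_top]
    have h1 : Subtype.val '' ({x, θ'} : Set K) = {t b, θ} := by
      rw [Set.image_pair]
    rw [h1]
  have hkS : ∀ c, c ≠ b → t c ∈ k.toSubfield.toSubring := by
    intro c hc
    have h1 : t c ∈ kb t b := IntermediateField.subset_adjoin ℚ _ ⟨c, hc, rfl⟩
    have h2 : algebraMap (kb t b) Ω ⟨t c, h1⟩ ∈ k := k.algebraMap_mem _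
    exact h2
  set ev : MvPolynomial (Option (Fin d)) ℤ →ₐ[ℤ] Ω :=
    aeval (fun o : Option (Fin d) => o.elim θ t) with hev
  have hexp : ∀ p : MvPolynomial (Option (Fin d)) ℤ, p.totalDegree ≤ c₀ →
      ∃ P : ℕ → ℕ → k, ((ev2 c₀ P x θ' : K) : Ω) = ev p ∧ (p ≠ 0 → ne2 c₀ P) := by
    intro p hp
    obtain ⟨P, hP1, hP2, hP3⟩ := coef2 t b k.toSubfield.toSubring θ hkS c₀ p hp
    refine ⟨fun i j => ⟨P i j, hP1 i j⟩, ?_, ?_⟩
    · rw [coe_ev2, hev, hP2]
    · intro hp0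
      obtain ⟨i, hi, j, hj, hij⟩ := hP3 hp0 ht
      refine ⟨i, hi, j, hj, ?_⟩
      intro h0
      apply hij
      exact congrArg Subtype.val h0
  obtain ⟨H, hH1, hH2⟩ := hexp h hdeg
  obtain ⟨B0, hB01, -⟩ := hexp (rename some b0) ((totalDegree_rename_le _ _).trans b0deg)
  choose Bj hBj1 hBj2 using fun j => hexp (bj j) (bjdeg j)
  have hev0 : ev (rename some b0) = aeval t b0 := by
    rw [hev, aeval_rename]
    rfl
  have hevK : ∀ p, ev p ∈ K := by
    intro p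
    induction p using MvPolynomial.induction_on with
    | C c =>
      rw [hev, aeval_C, eq_intCast]
      exact intCast_mem _ _
    | add P Q hP hQ =>
      rw [map_add]
      exact add_mem hP hQ
    | mul_X P o hP =>
      rw [map_mul]
      refine mul_mem hP ?_
      rw [hev, aeval_X]
      rcases o with _ | c
      · exact hθK
      · by_cases hc : c = b
        · rw [hc]
          exact hxK
        · have h1 : algebraMap k Ω ⟨t c, hkS c hc⟩ ∈ K := K.algebraMap_mem _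
          exact h1
  let y : Fin N → K := fun j => ⟨ev (bj j) / aeval t b0,
    div_mem (hevK _) (by rw [← hev0]; exact hevK _)⟩
  have hy : ∀ j, (y j : Ω) = ev (bj j) / aeval t b0 := fun j => rfl
  have hb00 : aeval t b0 ≠ 0 := fun h0 => b0ne ((injective_iff_map_eq_zero _).1 ht _ h0)
  let η : K := ⟨ev g₁ / ev g₂, div_mem (hevK _) (hevK _)⟩
  have hcoe : ∀ i : Fin n, ((algebraMap k K ((u i : ℤ) : k) * ∏ j, y j ^ e i j : K) : Ω) =
      (u i : Ω) * ∏ j, (ev (bj j) / aeval t b0) ^ e i j := by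
    intro i
    have h1 : algebraMap k K ((u i : ℤ) : k) = ((u i : ℤ) : K) := map_intCast _ _
    rw [h1]
    push_cast
    rfl
  have key := hRB k K x θ' hxt htop H B0 Bj (hH2 hne) (by
      apply Subtype.val_injective
      rw [hH1, hh]
      rfl) (by
      intro h0
      apply hb00
      rw [← hev0, ← hB01, h0]
      rfl) y (by
      intro j
      constructor
      · intro h0
        have h1 : (y j : Ω) = 0 := by rw [h0]; rfl
        rw [hy] at h1
        exact (div_ne_zero (hbj j) hb00) h1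
      · apply Subtype.val_injective
        have h1 : (((ev2 c₀ B0 x θ' : K) * y j : K) : Ω) = (ev2 c₀ B0 x θ' : K) * (y j : Ω) := rfl
        rw [h1, hB01, hBj1, hy, hev0]
        field_simp) e (fun i => ((u i : ℤ) : k)) (by
      intro i
      exact_mod_cast hu i) (by
      intro J hJn h0
      apply hJ J hJn
      have h1 : ((∑ i ∈ J, algebraMap k K ((u i : ℤ) : k) * ∏ j, y j ^ e i j : K) : Ω) = 0 := by
        rw [h0]; rfl
      rw [← h1]
      push_cast
      refine Finset.sum_congr rfl fun i _ => ?_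
      rw [← hcoe i]
      push_cast
      rfl) κ r η hκ1 hκ hr (by
      apply Subtype.val_injective
      have h1 : ((η ^ r : K) : Ω) = (ev g₁ / ev g₂) ^ r := rfl
      rw [h1, ← heq]
      have h2 : ∀ z : K, ((z ^ κ : K) : Ω) = (z : Ω) ^ κ := fun z => rfl
      rw [h2]
      congr 1
      have h3 : ∀ f : Fin n → K, ((∑ i, f i : K) : Ω) = ∑ i, (f i : Ω) := fun f => by push_cast; rfl
      rw [h3]
      exact Finset.sum_congr rfl fun i _ => hcoe i) i i'
  obtain ⟨P, hP1, hP2⟩ := key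
  refine ⟨fun i j => (P i j : Ω), fun i j => ?_, ?_, ?_⟩
  · exact mem_algebraicClosure_iff.1 (P i j).2
  · obtain ⟨i, hi, j, hj, hij⟩ := hP1
    refine ⟨i, hi, j, hj, ?_⟩
    intro h0
    exact hij (Subtype.val_injective h0)
  · have h1 : ((ev2 B P x ((algebraMap k K ((u i : ℤ) : k) * ∏ j, y j ^ e i j) /
      (algebraMap k K ((u i' : ℤ) : k) * ∏ j, y j ^ e i' j)) : K) : Ω) = 0 := by
      rw [hP2]
      rfl
    rw [coe_ev2] at h1
    have h2 : ((((algebraMap k K ((u i : ℤ) : k) * ∏ j, y j ^ e i j) /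
      (algebraMap k K ((u i' : ℤ) : k) * ∏ j, y j ^ e i' j) : K)) : Ω) =
        ((algebraMap k K ((u i : ℤ) : k) * ∏ j, y j ^ e i j : K) : Ω) /
        ((algebraMap k K ((u i' : ℤ) : k) * ∏ j, y j ^ e i' j : K) : Ω) := rfl
    rw [h2, hcoe, hcoe] at h1
    exact h1

theorem dirΨ (hd : S_dir) (N c₀ n k₀ : ℕ) : ∃ R₀ B : ℕ,
    ∀ (Ω : Type) [Field Ω] [CharZero Ω] [IsAlgClosed Ω] [Algebra ℚ Ω] (d : ℕ)
      (ψ : MvPolynomial (Option (Fin d)) ℤ →+* Ω) (b : Fin d),
    (∀ c : MvPolynomial (Fin d) ℤ, c ≠ 0 → ψ (rename some c) ≠ 0) →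
    ∀ (h : MvPolynomial (Option (Fin d)) ℤ) (b0 : MvPolynomial (Fin d) ℤ)
      (bj : Fin N → MvPolynomial (Option (Fin d)) ℤ),
    h ≠ 0 → h.totalDegree ≤ c₀ → b0 ≠ 0 → b0.totalDegree ≤ c₀ → (∀ j, (bj j).totalDegree ≤ c₀) →
    ψ h = 0 → (∀ j, ψ (bj j) ≠ 0) →
    ∀ (e : Fin n → Fin N → ℕ) (u : Fin n → ℤ), (∀ i, u i ≠ 0) →
    (∀ J : Finset (Fin n), J.Nonempty → ∑ i ∈ J, (u i : Ω) *
      ∏ j, (ψ (bj j) / ψ (rename some b0)) ^ e i j ≠ 0) →
    ∀ (κ r : ℕ) (g₁ g₂ : MvPolynomial (Option (Fin d)) ℤ), 1 ≤ κ → κ ≤ k₀ → R₀ ≤ r →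
    (∑ i, (u i : Ω) * ∏ j, (ψ (bj j) / ψ (rename some b0)) ^ e i j) ^ κ = (ψ g₁ / ψ g₂) ^ r →
    ∀ i i' : Fin n, ∃ P : ℕ → ℕ → Ω, (∀ i j, IsAlgebraic (IntermediateField.adjoin ℚ
      {x : Ω | ∃ c, c ≠ b ∧ x = ψ (X (some c))}) (P i j)) ∧ ne2 B P ∧
      ev2 B P (ψ (X (some b))) (((u i : Ω) * ∏ j, (ψ (bj j) / ψ (rename some b0)) ^ e i j) /
        ((u i' : Ω) * ∏ j, (ψ (bj j) / ψ (rename some b0)) ^ e i' j)) = 0 := by
  obtain ⟨R₀, B, hRB⟩ := dirΩ hd N c₀ n k₀
  refine ⟨R₀, B, ?_⟩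
  intro Ω _ _ _ i2 d ψ b hind h b0 bj hne hdeg b0ne b0deg bjdeg hh hbj e u hu hJ κ r g₁ g₂ hκ1 hκ hr
    heq i i'
  obtain rfl : i2 = DivisionRing.toRatAlgebra := Subsingleton.elim _ _
  let t : Fin d → Ω := fun c => ψ (X (some c))
  let θ : Ω := ψ (X none)
  have hψ : ∀ p, ψ p = aeval (fun o : Option (Fin d) => o.elim θ t) p := by
    intro p
    have h3 : ψ = (aeval (fun o : Option (Fin d) => o.elim θ t) :
        MvPolynomial (Option (Fin d)) ℤ →ₐ[ℤ] Ω).toRingHom := by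
      apply MvPolynomial.ringHom_ext
      · intro c
        rw [AlgHom.toRingHom_eq_coe, RingHom.coe_coe, aeval_C, eq_intCast, eq_intCast, map_intCast]
      · intro o
        rw [AlgHom.toRingHom_eq_coe, RingHom.coe_coe, aeval_X]
        rcases o with _ | c
        · rfl
        · rfl
    exact RingHom.congr_fun h3 p
  have hren : ∀ c : MvPolynomial (Fin d) ℤ, ψ (rename some c) = aeval t c := by
    intro c
    rw [hψ, aeval_rename]
    rfl
  have ht : AlgebraicIndependent ℤ t := by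
    refine (injective_iff_map_eq_zero _).2 fun p hp => ?_
    by_contra hp0
    exact hind p hp0 (by rw [hren]; exact hp)
  simp only [hren, hψ (bj _), hψ g₁, hψ g₂] at hJ heq ⊢
  exact hRB Ω d t θ b ht h b0 bj hne hdeg b0ne b0deg bjdeg (by rw [← hψ]; exact hh) (fun j => by
    rw [← hψ]; exact hbj j) e u hu hJ κ r g₁ g₂ hκ1 hκ hr heq i i'

end Pool.Agent.N54.HB
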