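import Pool.Agent.N54.HB.A2
import Pool.Agent.N54.HB.A3

/-! Project HB, task 13: `S_alg` from `S_dir` and `S_conv`. -/

set_option autoImplicit false

namespace Pool.Agent.N54.HB

open MvPolynomial Pool.Agent.N741.HB Pool.Agent.Y902.GN

theorem alg (h1 : S_dir) (h2 : S_conv) : Pool.Agent.N741.HB.S_alg := by
  classical
  intro d N c₀ n k₀
  obtain ⟨R₀, B, hRB⟩ := dirΨ h1 N c₀ n k₀
  refine ⟨R₀, c₀ * (B + 1), ?_⟩
  intro h b0 b hI hdeg b0ne b0deg hb e u M huM hJ κ r g₁ g₂ hκ1 hκ hr hg1 hg2 heq i i'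
  obtain ⟨L, _, φ, hφ, hfrac⟩ := exL h hI
  let t : Fin d → L := fun b => φ (X (some b))
  let θ : L := φ (X none)
  have hφe : ∀ p, φ p = aeval (fun o : Option (Fin d) => o.elim θ t) p := by
    intro p
    have h3 : φ = (aeval (fun o : Option (Fin d) => o.elim θ t) :
        MvPolynomial (Option (Fin d)) ℤ →ₐ[ℤ] L).toRingHom := by
      apply MvPolynomial.ringHom_ext
      · intro c
        rw [AlgHom.toRingHom_eq_coe, RingHom.coe_coe, aeval_C, eq_intCast, eq_intCast, map_intCast]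
      · intro o
        rw [AlgHom.toRingHom_eq_coe, RingHom.coe_coe, aeval_X]
        rcases o with _ | c
        · rfl
        · rfl
    exact RingHom.congr_fun h3 p
  have hren : ∀ c : MvPolynomial (Fin d) ℤ, φ (rename some c) = aeval t c := by
    intro c
    rw [hφe, aeval_rename]
    rfl
  have hren0 : ∀ c : MvPolynomial (Fin d) ℤ, c ≠ 0 → φ (rename some c) ≠ 0 := by
    intro c hc h0
    rw [hφ] at h0
    obtain ⟨c', hc', h3⟩ := h0
    apply hI.one
    refine ⟨c' * c, mul_ne_zero hc' hc, ?_⟩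
    rw [mul_one, map_mul]
    exact h3
  have hchar : CharZero L := by
    apply charZero_of_inj_zero
    intro m hm
    by_contra hm0
    have h3 : (C (m : ℤ) : MvPolynomial (Fin d) ℤ) ≠ 0 := by
      rw [Ne, C_eq_zero]
      exact_mod_cast hm0
    apply hren0 _ h3
    rw [hren, aeval_C, eq_intCast]
    exact_mod_cast hm
  have ht : AlgebraicIndependent ℤ t := by
    refine (injective_iff_map_eq_zero _).2 fun p hp => ?_
    by_contra hp0
    exact hren0 p hp0 (by rw [hren]; exact hp)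
  have hhh : φ h = 0 := by
    rw [hφ]
    exact ⟨1, one_ne_zero, dvd_mul_left _ _⟩
  have hdegH : (optionEquivLeft ℤ (Fin d) h).natDegree ≤ c₀ := by
    rw [natDegree_optionEquivLeft]
    exact (degreeOf_le_totalDegree h none).trans hdeg
  have hb00 : aeval t b0 ≠ 0 := by
    rw [← hren]
    exact hren0 b0 b0ne
  have hbdeg : ∀ y : L, ∃ P : Polynomial (MvPolynomial (Fin d) ℤ), P ≠ 0 ∧ P.natDegree ≤ c₀ ∧
      P.eval₂ (aeval t).toRingHom y = 0 := by
    intro y
    obtain ⟨P, hP1, hP2, hP3⟩ := degL t θ ht (optionEquivLeft ℤ (Fin d) h) (by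
      rw [Ne, map_eq_zero_iff _ (optionEquivLeft ℤ (Fin d)).injective]
      exact hI.ne) (by rw [← ev_left, ← hφe, hhh]) (fun z => by
        obtain ⟨a, b, _, hz⟩ := hfrac z
        exact ⟨a, b, by rw [hz, hφe, hφe]⟩) y
    exact ⟨P, hP1, hP2.trans hdegH, hP3⟩
  -- the terms
  let T : Fin n → L := fun i => (u i : L) * ∏ j, (φ (b j) / aeval t b0) ^ e i j
  have hmon : ∀ i, φ (C (u i) * mon (rename some b0) b (e i) M) = aeval t b0 ^ M * T i := by
    intro i
    have h3 : aeval t b0 ^ M = aeval t b0 ^ (M - ∑ j, e i j) * aeval t b0 ^ ∑ j, e i j := by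
      rw [← pow_add, Nat.sub_add_cancel (huM i).2]
    have h4 : ∏ j, (φ (b j) / aeval t b0) ^ e i j =
        (∏ j, φ (b j) ^ e i j) / aeval t b0 ^ ∑ j, e i j := by
      rw [← Finset.prod_pow_eq_pow_sum, ← Finset.prod_div_distrib]
      exact Finset.prod_congr rfl fun j _ => div_pow _ _ _
    have h5 : φ (C (u i)) = (u i : L) := by
      rw [hφe, aeval_C, eq_intCast]
    rw [map_mul, h5, mon, map_mul, map_prod, map_pow, hren, h3]
    simp only [T, h4, map_pow]
    field_simp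
  have hsum : ∀ J : Finset (Fin n), φ (∑ i ∈ J, C (u i) * mon (rename some b0) b (e i) M) =
      aeval t b0 ^ M * ∑ i ∈ J, T i := by
    intro J
    rw [map_sum, Finset.mul_sum]
    exact Finset.sum_congr rfl fun i _ => hmon i
  have hT : ∀ J : Finset (Fin n), J.Nonempty → ∑ i ∈ J, T i ≠ 0 := by
    intro J hJn h0
    apply hJ J hJn
    rw [← hφ, hsum, h0, mul_zero]
  have hg10 : φ g₁ ≠ 0 := fun h0 => hg1 ((hφ _).1 h0)
  have hg20 : φ g₂ ≠ 0 := fun h0 => hg2 ((hφ _).1 h0)
  have hbj0 : ∀ j, φ (b j) ≠ 0 := fun j h0 => (hb j).2 ((hφ _).1 h0)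
  have heq' : (∑ i, T i) ^ κ = (φ g₁ / φ g₂) ^ r := by
    have h3 := (hφ _).2 heq
    rw [map_sub, map_mul, map_pow, hsum, map_mul, map_pow, map_pow, map_pow, map_pow, hren,
      mul_pow, sub_eq_zero] at h3
    have h4 : ((aeval t b0 ^ M) ^ κ : L) ≠ 0 := pow_ne_zero _ (pow_ne_zero _ hb00)
    rw [div_pow, eq_div_iff (pow_ne_zero _ hg20)]
    apply mul_left_cancel₀ h4
    rw [← mul_assoc]
    exact h3
  have hTi : T i' ≠ 0 := by
    have h3 := hT {i'} (Finset.singleton_nonempty _)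
    rwa [Finset.sum_singleton] at h3
  obtain ⟨G, hG0, hG⟩ := h2 d c₀ B L t (T i / T i') ht (fun y => by
      obtain ⟨P, hP1, -, hP3⟩ := hbdeg y
      exact ⟨P, hP1, hP3⟩) (hbdeg _) (by
    intro bb σ hσ
    let ψ : MvPolynomial (Option (Fin d)) ℤ →+* AlgebraicClosure L := σ.comp φ
    have hψ : ∀ p, σ (φ p) = ψ p := fun p => rfl
    have hψt : ∀ c, ψ (X (some c)) = algebraMap L (AlgebraicClosure L) (t c) := fun c => hσ c
    have hσT : ∀ i, σ (T i) = (u i : AlgebraicClosure L) *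
        ∏ j, (ψ (b j) / ψ (rename some b0)) ^ e i j := by
      intro i
      simp only [T]
      rw [map_mul, map_intCast, map_prod]
      congr 1
      refine Finset.prod_congr rfl fun j _ => ?_
      rw [map_pow, map_div₀, ← hren, hψ, hψ]
    obtain ⟨P, hP1, hP2, hP3⟩ := hRB (AlgebraicClosure L) d ψ bb (fun c hc => by
        rw [← hψ, Ne, map_eq_zero_iff _ σ.injective]
        exact hren0 c hc) h b0 b hI.ne hdeg b0ne
      b0deg (fun j => (hb j).1) (by rw [← hψ, hhh, map_zero]) (by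
        intro j
        rw [← hψ, Ne, map_eq_zero_iff _ σ.injective]
        exact hbj0 j) e u (fun i => (huM i).1) (by
        intro J hJn h0
        apply hT J hJn
        rw [← map_eq_zero_iff _ σ.injective, map_sum, ← h0]
        exact Finset.sum_congr rfl fun i _ => hσT i) κ r g₁ g₂ hκ1 hκ hr (by
        rw [← hψ g₁, ← hψ g₂, ← map_div₀, ← map_pow, ← heq', map_pow, map_sum]
        congr 1
        exact Finset.sum_congr rfl fun i _ => (hσT i).symm) i i'
    refine ⟨P, ?_, hP2, ?_⟩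
    · intro i j
      have h3 := hP1 i j
      have h4 : {x : AlgebraicClosure L | ∃ c, c ≠ bb ∧ x = ψ (X (some c))} =
          {x : AlgebraicClosure L | ∃ c, c ≠ bb ∧ x = algebraMap L _ (t c)} := by
        ext x
        simp only [hψt]
      rw [h4] at h3
      exact h3
    · rw [map_div₀, hσT, hσT, ← hψt]
      exact hP3)
  refine ⟨G, hG0, (hφ _).1 ?_⟩
  rw [map_sum]
  have hkey : ∀ (α : Fin d → Fin (c₀ * (B + 1) + 1)) (j : Fin (c₀ * (B + 1) + 1)),
      φ (C (G α j) * ((∏ q, X (some q) ^ (α q : ℕ)) *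
        ((C (u i) * mon (rename some b0) b (e i) M) ^ (j : ℕ) *
          (C (u i') * mon (rename some b0) b (e i') M) ^ (c₀ * (B + 1) - j)))) =
      (aeval t b0 ^ M * T i') ^ (c₀ * (B + 1)) *
        ((G α j : L) * ((∏ b, t b ^ (α b : ℕ)) * (T i / T i') ^ (j : ℕ))) := by
    intro α j
    have h3 : φ (C (G α j)) = (G α j : L) := by
      rw [hφe, aeval_C, eq_intCast]
    have h4 : φ (∏ q, X (some q) ^ (α q : ℕ)) = ∏ b, t b ^ (α b : ℕ) := by
      rw [map_prod]
      exact Finset.prod_congr rfl fun q _ => map_pow _ _ _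
    have h5 : (aeval t b0 ^ M * T i') ^ (c₀ * (B + 1)) =
        (aeval t b0 ^ M * T i') ^ (j : ℕ) * (aeval t b0 ^ M * T i') ^ (c₀ * (B + 1) - j) := by
      rw [← pow_add, Nat.add_sub_cancel' (Nat.lt_succ_iff.1 j.2)]
    have h6 : (aeval t b0 ^ M * T i) ^ (j : ℕ) =
        (aeval t b0 ^ M * T i') ^ (j : ℕ) * (T i / T i') ^ (j : ℕ) := by
      rw [← mul_pow]
      congr 1
      field_simp
    rw [map_mul, map_mul, map_mul, map_pow, map_pow, hmon, hmon, h3, h4, h5, h6]
    ring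
  rw [← mul_zero ((aeval t b0 ^ M * T i') ^ (c₀ * (B + 1))), ← hG, Finset.mul_sum]
  refine Finset.sum_congr rfl fun α _ => ?_
  rw [map_sum, Finset.mul_sum]
  exact Finset.sum_congr rfl fun j _ => hkey α j

end Pool.Agent.N54.HB
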